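import Mathlib

open Finset

namespace Pool.Agent.H.MP_cda74c_nt

open Classical in
noncomputable def ind (P : Prop) : ℝ := if P then 1 else 0

lemma ind_nonneg (P : Prop) : 0 ≤ ind P := by unfold ind; split_ifs <;> norm_num
lemma ind_le_one (P : Prop) : ind P ≤ 1 := by unfold ind; split_ifs <;> norm_num
lemma ind_pos {P : Prop} (h : P) : ind P = 1 := by unfold ind; simp [h]
lemma ind_neg {P : Prop} (h : ¬ P) : ind P = 0 := by unfold ind; simp [h]
lemma ind_mono {P Q : Prop} (h : P → Q) : ind P ≤ ind Q := by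
  by_cases hp : P
  · rw [ind_pos hp, ind_pos (h hp)]
  · rw [ind_neg hp]; exact ind_nonneg _

noncomputable def cnt (N : ℕ) (Y : ℕ → Prop) : ℝ := ∑ x ∈ range N, ind (Y x)

lemma cnt_nonneg (N : ℕ) (Y : ℕ → Prop) : 0 ≤ cnt N Y := sum_nonneg (fun _ _ => ind_nonneg _)

lemma cnt_mono (N : ℕ) {Y Z : ℕ → Prop} (h : ∀ x, Y x → Z x) : cnt N Y ≤ cnt N Z :=
  sum_le_sum (fun x _ => ind_mono (h x))

lemma cnt_shift (N : ℕ) (Y : ℕ → Prop) (hY : ∀ x, Y (x + N) ↔ Y x) (s : ℕ) :
    cnt N (fun x => Y (x + s)) = cnt N Y := by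
  induction s with
  | zero => simp
  | succ s ih =>
    rw [← ih]
    unfold cnt
    have h1 := Finset.sum_range_succ (fun x => ind (Y (x + s))) N
    have h2 := Finset.sum_range_succ' (fun x => ind (Y (x + s))) N
    have h3 : ind (Y (N + s)) = ind (Y (0 + s)) := by
      have : Y (N + s) ↔ Y (0 + s) := by rw [add_comm N s, zero_add]; exact hY s
      rw [propext this]
    have h4 : ∑ x ∈ range N, ind (Y (x + (s + 1))) = ∑ x ∈ range N, ind (Y (x + 1 + s)) := by
      apply sum_congr rfl; intro x _; congr 2; ring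
    rw [h4]; linarith

lemma cnt_class (N a b : ℕ) (hb : 0 < b) (h : b ∣ N) :
    cnt N (fun x => x ≡ a [MOD b]) = (N : ℝ) / b := by
  have h1 := Nat.count_modEq_card N hb a
  obtain ⟨c, rfl⟩ := h
  rw [Nat.count_eq_card_filter_range] at h1
  simp only [Nat.mul_mod_right, Nat.not_lt_zero, if_false, add_zero,
    Nat.mul_div_cancel_left _ hb] at h1
  have h2 : cnt (b * c) (fun x => x ≡ a [MOD b])
      = (((range (b * c)).filter (fun x => x ≡ a [MOD b])).card : ℝ) := by
    unfold cnt ind
    rw [Finset.card_filter]; push_cast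
    apply sum_congr rfl; intro x _; congr
  rw [h2, h1]; push_cast; field_simp

lemma fiber (p e K M x a : ℕ) (hp : 0 < p) (he : e ≤ K) (hc : Nat.Coprime M p) :
    (p : ℝ) ^ K / (p : ℝ) ^ e ≤ cnt (p ^ K) (fun t => x + M * t ≡ a [MOD p ^ e]) := by
  have hpe : 0 < p ^ e := pow_pos hp e
  obtain ⟨t0, -, ht0⟩ := Nat.exists_mul_mod_eq_of_coprime (a + (p ^ e - 1) * x)
    (hc.pow_right e) hpe.ne'
  have h1 := cnt_class (p ^ K) t0 (p ^ e) hpe (pow_dvd_pow p he)
  push_cast at h1
  rw [← h1]
  apply cnt_mono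
  intro t ht
  have h2 : M * t ≡ a + (p ^ e - 1) * x [MOD p ^ e] := (ht.mul_left M).trans ht0
  have h3 : x + (a + (p ^ e - 1) * x) = a + p ^ e * x := by
    obtain ⟨r, hr⟩ : ∃ r, p ^ e = r + 1 := ⟨p ^ e - 1, by omega⟩
    rw [hr]; simp; ring
  have h4 := h2.add_left x
  rw [h3] at h4
  exact h4.trans (by simp [Nat.ModEq])

lemma geo (p : ℝ) (hp : 1 < p) (e0 K : ℕ) (f : ℕ → ℝ) (h1 : ∀ e, f e ≤ 1)
    (h0 : ∀ e < e0, f e = 0) :
    (1 - 1 / p) * ∑ e ∈ range K, (1 / p) ^ e * f e ≤ (1 / p) ^ e0 := by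
  have hq : 0 < 1 / p := by positivity
  have hq1 : 1 / p < 1 := by rw [div_lt_one (by linarith)]; exact hp
  set q := 1 / p
  have key : ∀ K, (1 - q) * ∑ e ∈ range K, q ^ e * f e ≤ max 0 (q ^ e0 - q ^ K) := by
    intro K
    induction K with
    | zero => simp
    | succ K ih =>
      rw [sum_range_succ, mul_add]
      by_cases hK : K < e0
      · rw [h0 K hK]
        have : q ^ e0 - q ^ K ≤ 0 := by
          have := pow_le_pow_of_le_one hq.le hq1.le hK.le
          linarith
        rw [max_eq_left this] at ih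
        simp only [mul_zero, add_zero]
        exact ih.trans (le_max_left _ _)
      · have : 0 ≤ q ^ e0 - q ^ K := by
          have := pow_le_pow_of_le_one hq.le hq1.le (not_lt.1 hK)
          linarith
        rw [max_eq_right this] at ih
        refine le_trans ?_ (le_max_right _ _)
        have h2 : (1 - q) * (q ^ K * f K) ≤ (1 - q) * (q ^ K * 1) := by
          apply mul_le_mul_of_nonneg_left _ (by linarith)
          exact mul_le_mul_of_nonneg_left (h1 K) (by positivity)
        rw [pow_succ]; nlinarith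
  refine (key K).trans (max_le (by positivity) ?_)
  have : 0 < q ^ K := by positivity
  linarith

lemma split_sum {ι : Type*} (J : Finset ι) (b : ι → ℕ) (p K : ℕ)
    (hK : ∀ j ∈ J, (b j).factorization p < K) :
    ∑ j ∈ J, (1 : ℝ) / b j = ∑ e ∈ range K, (1 / (p : ℝ)) ^ e *
      ∑ j ∈ J.filter (fun j => (b j).factorization p = e), (1 : ℝ) / (ordCompl[p] (b j) : ℕ) := by
  rw [← Finset.sum_fiberwise_of_maps_to (s := J) (t := range K)
    (g := fun j => (b j).factorization p) (fun j hj => mem_range.2 (hK j hj))]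
  apply sum_congr rfl
  intro e _
  rw [mul_sum]
  apply sum_congr rfl
  intro j hj
  have he := (mem_filter.1 hj).2
  have h1 := Nat.ordProj_mul_ordCompl_eq_self (b j) p
  conv_lhs => rw [← h1]
  rw [he]; push_cast
  rw [one_div_pow, div_mul_div_comm, one_mul]

lemma inj_compl {ι : Type*} (J : Finset ι) (b : ι → ℕ) (hb : Set.InjOn b J) (p e : ℕ) :
    Set.InjOn (fun j => ordCompl[p] (b j))
      (J.filter (fun j => (b j).factorization p = e) : Finset ι) := by
  intro i hi j hj hij
  rw [Finset.mem_coe, mem_filter] at hi hj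
  apply hb hi.1 hj.1
  rw [← Nat.ordProj_mul_ordCompl_eq_self (b i) p, ← Nat.ordProj_mul_ordCompl_eq_self (b j) p]
  simp only at hij
  rw [hij, hi.2, hj.2]

lemma rogers {ι : Type*} (N : ℕ) (hN : 0 < N) (a : ι → ℕ) (S : Finset ℕ) :
    (∀ p ∈ S, p.Prime) → ∀ (J : Finset ι) (b : ι → ℕ), Set.InjOn b J →
    (∀ j ∈ J, b j ∣ N ∧ ∀ p, p.Prime → p ∣ b j → p ∈ S) →
    (∏ p ∈ S, (1 - 1 / (p : ℝ))) * (∑ j ∈ J, (1 : ℝ) / b j) * N
      ≤ cnt N (fun x => ∃ j ∈ J, x ≡ a j [MOD b j]) := by
  induction S using Finset.induction_on with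
  | empty =>
    intro _ J b hb h
    have h1 : ∀ j ∈ J, b j = 1 := by
      intro j hj
      by_contra hne
      obtain ⟨p, hp, hd⟩ := Nat.exists_prime_and_dvd hne
      simpa using (h j hj).2 p hp hd
    rcases J.eq_empty_or_nonempty with rfl | ⟨j, hj⟩
    · simp [cnt_nonneg]
    · have hJ : J = {j} := by
        apply Finset.eq_singleton_iff_unique_mem.2 ⟨hj, fun i hi => hb hi hj ?_⟩
        rw [h1 i hi, h1 j hj]
      have := cnt_class N (a j) 1 one_pos (one_dvd _)
      rw [hJ]
      simp only [prod_empty, sum_singleton, h1 j hj, mem_singleton, exists_eq_left]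
      rw [this]; simp
  | insert p S hpS ih =>
    intro hS J b hb h
    have hp : p.Prime := hS p (mem_insert_self _ _)
    have hp1 : (1 : ℝ) < p := by exact_mod_cast hp.one_lt
    have hb0 : ∀ j ∈ J, b j ≠ 0 := fun j hj h0 => by
      have := (h j hj).1; rw [h0, zero_dvd_iff] at this; omega
    have hK : ∀ j ∈ J, (b j).factorization p < N := fun j hj =>
      (Nat.factorization_lt p (hb0 j hj)).trans_le (Nat.le_of_dvd hN (h j hj).1)
    let Ye : ℕ → ℕ → Prop := fun e x => ∃ j ∈ J.filter (fun j => (b j).factorization p = e),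
      x ≡ a j [MOD ordCompl[p] (b j)]
    have hI : ∀ e, (∏ p ∈ S, (1 - 1 / (p : ℝ))) *
        (∑ j ∈ J.filter (fun j => (b j).factorization p = e), (1 : ℝ) / (ordCompl[p] (b j) : ℕ)) * N
        ≤ cnt N (Ye e) := by
      intro e
      apply ih (fun q hq => hS q (mem_insert_of_mem hq)) _ _ (inj_compl J b hb p e)
      intro j hj
      have hj1 := (mem_filter.1 hj).1
      refine ⟨(Nat.ordCompl_dvd _ _).trans (h j hj1).1, fun q hq hd => ?_⟩
      have := (h j hj1).2 q hq (hd.trans (Nat.ordCompl_dvd _ _))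
      rcases mem_insert.1 this with rfl | h2
      · exact absurd hd (Nat.not_dvd_ordCompl hq (hb0 j hj1))
      · exact h2
    set M := ordCompl[p] N with hM
    have hMc : Nat.Coprime M p := (Nat.coprime_ordCompl hp hN.ne').symm
    let Y : ℕ → Prop := fun x => ∃ j ∈ J, x ≡ a j [MOD b j]
    have hYp : ∀ x, Y (x + N) ↔ Y x := by
      intro x
      apply exists_congr; intro j; apply and_congr_right; intro hj
      have : x + N ≡ x [MOD b j] := by
        have := (Nat.modEq_zero_iff_dvd.2 (h j hj).1).add_left x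
        simpa using this
      exact ⟨fun h' => this.symm.trans h', fun h' => this.trans h'⟩
    have pw : ∀ x, (p : ℝ) ^ N * ((1 - 1 / (p : ℝ)) * ∑ e ∈ range N, (1 / (p : ℝ)) ^ e * ind (Ye e x))
        ≤ cnt (p ^ N) (fun t => Y (x + M * t)) := by
      intro x
      classical
      by_cases hx : ∃ e, Ye e x
      · have g := geo p hp1 (Nat.find hx) N (fun e => ind (Ye e x)) (fun e => ind_le_one _)
          (fun e he => ind_neg (Nat.find_min hx he))
        obtain ⟨j, hj, hxj⟩ := Nat.find_spec hx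
        obtain ⟨hj1, hj2⟩ := mem_filter.1 hj
        have f := fiber p (Nat.find hx) N M x (a j) hp.pos (hj2 ▸ (hK j hj1).le) hMc
        have m : cnt (p ^ N) (fun t => x + M * t ≡ a j [MOD p ^ Nat.find hx])
            ≤ cnt (p ^ N) (fun t => Y (x + M * t)) := by
          apply cnt_mono
          intro t ht
          refine ⟨j, hj1, ?_⟩
          rw [← Nat.ordProj_mul_ordCompl_eq_self (b j) p]
          rw [← Nat.modEq_and_modEq_iff_modEq_mul
            ((Nat.coprime_ordCompl hp (hb0 j hj1)).pow_left _)]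
          refine ⟨hj2 ▸ ht, ?_⟩
          have d : ordCompl[p] (b j) ∣ M * t :=
            (Nat.ordCompl_dvd_ordCompl_of_dvd (h j hj1).1 p).mul_right t
          have := (Nat.modEq_zero_iff_dvd.2 d).add_left x
          rw [add_zero] at this
          exact this.trans hxj
        refine le_trans ?_ (f.trans m)
        rw [div_eq_mul_one_div ((p : ℝ) ^ N), ← one_div_pow]
        exact mul_le_mul_of_nonneg_left g (by positivity)
      · have : ∀ e, ind (Ye e x) = 0 := fun e => ind_neg (fun h' => hx ⟨e, h'⟩)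
        simp only [this, mul_zero, sum_const_zero]
        exact cnt_nonneg _ _
    have sm := sum_le_sum (fun x (_ : x ∈ range N) => pw x)
    have r1 : ∑ x ∈ range N, cnt (p ^ N) (fun t => Y (x + M * t)) = (p : ℝ) ^ N * cnt N Y := by
      unfold cnt
      rw [sum_comm]
      have : ∀ t ∈ range (p ^ N), ∑ x ∈ range N, ind (Y (x + M * t))
          = ∑ x ∈ range N, ind (Y x) := fun t _ => cnt_shift N Y hYp (M * t)
      rw [sum_congr rfl this]; simp
    have r2 : ∑ x ∈ range N, (p : ℝ) ^ N * ((1 - 1 / (p : ℝ)) *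
        ∑ e ∈ range N, (1 / (p : ℝ)) ^ e * ind (Ye e x))
        = (p : ℝ) ^ N * ((1 - 1 / (p : ℝ)) * ∑ e ∈ range N, (1 / (p : ℝ)) ^ e * cnt N (Ye e)) := by
      rw [← mul_sum, ← mul_sum, sum_comm]
      congr 2
      apply sum_congr rfl; intro e _
      rw [← mul_sum]; rfl
    rw [r1, r2] at sm
    have sm2 := le_of_mul_le_mul_left sm (by positivity)
    refine le_trans ?_ sm2
    rw [prod_insert hpS, split_sum J b p N hK, mul_assoc, mul_assoc]
    have h01 : 0 ≤ 1 - 1 / (p : ℝ) := by
      have : 1 / (p : ℝ) ≤ 1 := by rw [div_le_one (by linarith)]; linarith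
      linarith
    apply mul_le_mul_of_nonneg_left _ h01
    rw [← mul_assoc, mul_sum, sum_mul]
    apply sum_le_sum
    intro e _
    have := mul_le_mul_of_nonneg_left (hI e) (show 0 ≤ (1 / (p : ℝ)) ^ e by positivity)
    refine le_trans (le_of_eq ?_) this
    ring

end Pool.Agent.H.MP_cda74c_nt
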