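import Mathlib

open Finset Filter Topology

namespace Pool.Agent.H.MP_cda74c_nt

noncomputable def RR (q : ℕ) : ℝ := ∏ p ∈ q.primesBelow, (1 - 1 / (p : ℝ))

lemma RR_succ (q : ℕ) : RR (q + 1) = if q.Prime then (1 - 1 / (q : ℝ)) * RR q else RR q := by
  unfold RR
  rw [Nat.primesBelow_succ]
  split_ifs with h
  · rw [prod_insert (Nat.notMem_primesBelow q)]
  · rfl

lemma RR_pos (q : ℕ) : 0 < RR q := by
  unfold RR
  apply prod_pos
  intro p hp
  have : (1 : ℝ) < p := by exact_mod_cast (Nat.prime_of_mem_primesBelow hp).one_lt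
  have : 1 / (p : ℝ) < 1 := by rw [div_lt_one (by linarith)]; exact this
  linarith

lemma RR_ge (q : ℕ) (hq : 1 ≤ q) : (1 - 1 / (q : ℝ)) * RR q ≤ RR (q + 1) := by
  rw [RR_succ]
  split_ifs
  · exact le_rfl
  · have := RR_pos q
    have : 0 < 1 / (q : ℝ) := by positivity
    nlinarith

lemma RR_anti : Antitone RR := by
  apply antitone_nat_of_succ_le
  intro q
  rw [RR_succ]
  split_ifs
  · have := RR_pos q
    have : 0 ≤ 1 / (q : ℝ) := by positivity
    nlinarith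
  · exact le_rfl

lemma RR_np (q : ℕ) (h : ¬ q.Prime) : RR (q + 1) = RR q := by rw [RR_succ, if_neg h]

lemma RR5 : RR 5 = 1 / 3 := by
  have h0 : RR 0 = 1 := by simp [RR]
  rw [RR_np 4 (by norm_num), RR_succ, if_pos (by norm_num), RR_succ, if_pos (by norm_num),
    RR_np 1 (by norm_num), RR_np 0 (by norm_num), h0]
  norm_num

lemma RR_lin (q : ℕ) (hq : 5 ≤ q) : 4 / 3 ≤ ((q : ℝ) - 1) * RR q := by
  induction q, hq using Nat.le_induction with
  | base => rw [RR5]; norm_num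
  | succ q hq ih =>
    have h1 := RR_ge q (by omega)
    have hq0 : (0 : ℝ) < q := by have : 0 < q := by omega
                                 exact_mod_cast this
    have : ((q + 1 : ℕ) : ℝ) - 1 = q := by push_cast; ring
    rw [this]
    have h2 := mul_le_mul_of_nonneg_left h1 hq0.le
    have h3 : (q : ℝ) * ((1 - 1 / (q : ℝ)) * RR q) = ((q : ℝ) - 1) * RR q := by field_simp
    linarith

lemma RR_cube (K : ℕ) (hK : 1 ≤ K) : 1 ≤ 125 * (K : ℝ) * RR (6 * K + 2) ^ 3 := by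
  induction K, hK using Nat.le_induction with
  | base =>
    have h8 : RR 8 = (1 - 1 / 7) * ((1 - 1 / 5) * (1 / 3)) := by
      rw [RR_succ, if_pos (by norm_num), RR_np 6 (by norm_num), RR_succ, if_pos (by norm_num), RR5]
      norm_num
    norm_num [h8]
  | succ K hK ih =>
    have np : ∀ d r : ℕ, 1 < d → d ≤ 3 → d ∣ 6 * K + r → ¬ (6 * K + r).Prime := by
      intro d r h1 h2 h3 hp
      rcases (Nat.dvd_prime hp).1 h3 with h | h <;> omega
    have e1 := RR_np _ (np 2 2 (by norm_num) (by norm_num) (by omega))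
    have e2 := RR_np _ (np 3 3 (by norm_num) (by norm_num) (by omega))
    have e3 := RR_np _ (np 2 4 (by norm_num) (by norm_num) (by omega))
    have e4 := RR_ge (6 * K + 5) (by omega)
    have e5 := RR_np _ (np 2 6 (by norm_num) (by norm_num) (by omega))
    have e6 := RR_ge (6 * K + 7) (by omega)
    have k1 : (1 : ℝ) ≤ K := by exact_mod_cast hK
    have e7 : 6 * (K + 1) + 2 = 6 * K + 7 + 1 := by ring
    rw [e7]
    rw [show 6 * K + 5 = 6 * K + 4 + 1 from rfl, e3, show 6 * K + 4 = 6 * K + 3 + 1 from rfl, e2,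
      show 6 * K + 3 = 6 * K + 2 + 1 from rfl, e1] at e4
    rw [show RR (6 * K + 7) = RR (6 * K + 6 + 1) from rfl, e5] at e6
    have e4' : (1 - 1 / (6 * (K : ℝ) + 5)) * RR (6 * K + 2) ≤ RR (6 * K + 6) := by
      have : ((6 * K + 2 + 1 + 1 + 1 : ℕ) : ℝ) = 6 * (K : ℝ) + 5 := by push_cast; ring
      rw [this] at e4; exact e4
    have e6' : (1 - 1 / (6 * (K : ℝ) + 7)) * RR (6 * K + 6) ≤ RR (6 * K + 7 + 1) := by
      have : ((6 * K + 7 : ℕ) : ℝ) = 6 * (K : ℝ) + 7 := by push_cast; ring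
      rw [this] at e6; exact e6
    have r0 := RR_pos (6 * K + 2)
    have c1 : (1 - 1 / (6 * (K : ℝ) + 5)) = (6 * K + 4) / (6 * K + 5) := by field_simp; ring
    have c2 : (1 - 1 / (6 * (K : ℝ) + 7)) = (6 * K + 6) / (6 * K + 7) := by field_simp; ring
    rw [c1] at e4'
    rw [c2] at e6'
    have f : (6 * (K : ℝ) + 6) / (6 * K + 7) * ((6 * K + 4) / (6 * K + 5)) * RR (6 * K + 2)
        ≤ RR (6 * K + 7 + 1) := by
      refine le_trans ?_ e6'
      rw [mul_assoc]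
      exact mul_le_mul_of_nonneg_left e4' (by positivity)
    have f3 := pow_le_pow_left₀ (by positivity) f 3
    have g : (K : ℝ) ≤ (K + 1) * ((6 * (K : ℝ) + 6) / (6 * K + 7) * ((6 * K + 4) / (6 * K + 5))) ^ 3 := by
      rw [div_mul_div_comm, div_pow, ← mul_div_assoc, le_div_iff₀ (by positivity)]
      rw [← sub_nonneg]
      have : ((K : ℝ) + 1) * ((6 * K + 6) * (6 * K + 4)) ^ 3 - K * ((6 * K + 7) * (6 * K + 5)) ^ 3
          = 13824 * (K : ℝ) ^ 0 + 74629 * (K : ℝ) ^ 1 + 160488 * (K : ℝ) ^ 2 + 171828 * (K : ℝ) ^ 3 + 91584 * (K : ℝ) ^ 4 + 19440 * (K : ℝ) ^ 5 := by ring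
      rw [this]; positivity
    push_cast
    rw [mul_pow] at f3
    have h3 : 0 < RR (6 * K + 2) ^ 3 := by positivity
    nlinarith [mul_le_mul_of_nonneg_right g h3.le]

noncomputable def eps (q : ℕ) : ℝ := 1 / (((q : ℝ) - 1) * RR q)

lemma eps_nonneg (q : ℕ) (hq : 5 ≤ q) : 0 ≤ eps q := by
  have := RR_lin q hq
  unfold eps; positivity

lemma eps_le (q : ℕ) (hq : 5 ≤ q) : eps q ≤ 3 / 4 := by
  have := RR_lin q hq
  unfold eps
  rw [div_le_iff₀ (by linarith)]; linarith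

lemma eps_le_rpow (q : ℕ) (hq : 5 ≤ q) : eps q ≤ 10 * (q : ℝ) ^ (-(2 / 3) : ℝ) := by
  have q5 : (5 : ℝ) ≤ q := by exact_mod_cast hq
  have h1 := RR_cube q (by omega)
  have h2 : RR (6 * q + 2) ≤ RR q := RR_anti (by omega)
  have h3 := pow_le_pow_left₀ (RR_pos _).le h2 3
  have h4 : 1 ≤ 125 * (q : ℝ) * RR q ^ 3 := by nlinarith
  have r0 := RR_pos q
  have e0 := eps_nonneg q hq
  apply le_of_pow_le_pow_left₀ (n := 3) (by norm_num) (by positivity)
  rw [mul_pow, ← Real.rpow_natCast ((q : ℝ) ^ (-(2 / 3) : ℝ)), ← Real.rpow_mul (by linarith)]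
  have : (-(2 / 3) : ℝ) * ((3 : ℕ) : ℝ) = -((2 : ℕ) : ℝ) := by norm_num
  rw [this, Real.rpow_neg (by linarith), Real.rpow_natCast]
  unfold eps
  have hq1 : 0 < (q : ℝ) - 1 := by linarith
  rw [div_pow, one_pow, ← div_eq_mul_inv, div_le_div_iff₀ (by positivity) (by positivity), mul_pow]
  have h5 : (q : ℝ) ^ 3 ≤ 8 * ((q : ℝ) - 1) ^ 3 := by
    have : (q : ℝ) ≤ 2 * ((q : ℝ) - 1) := by linarith
    have := pow_le_pow_left₀ (by linarith) this 3
    linarith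
  have h6 : 0 < RR q ^ 3 := by positivity
  nlinarith [mul_le_mul_of_nonneg_right h5 h6.le, mul_le_mul_of_nonneg_right h4 (sq_nonneg (q : ℝ))]

lemma sum_rpow_bdd (s : ℝ) (hs : 1 < s) : ∃ Z : ℝ, 0 ≤ Z ∧ ∀ (D : Finset ℕ) (r : ℕ → ℕ),
    Set.InjOn r D → ∑ q ∈ D, (r q : ℝ) ^ (-s) ≤ Z := by
  have hsum : Summable (fun n : ℕ => (n : ℝ) ^ (-s)) := Real.summable_nat_rpow.2 (by linarith)
  refine ⟨∑' n : ℕ, (n : ℝ) ^ (-s), tsum_nonneg (fun n => by positivity), fun D r hr => ?_⟩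
  rw [← Finset.sum_image (f := fun n : ℕ => (n : ℝ) ^ (-s)) hr]
  exact hsum.sum_le_tsum _ (fun n _ => by positivity)

lemma phase1 : ∃ C : ℝ, 0 ≤ C ∧ ∀ Q : ℕ, ∑ q ∈ Ico 5 Q, eps q ≤ C * (Q : ℝ) ^ (2 / 5 : ℝ) := by
  obtain ⟨Z, hZ0, hZ⟩ := sum_rpow_bdd (16 / 15) (by norm_num)
  refine ⟨10 * Z, by positivity, fun Q => ?_⟩
  have h1 := hZ (Ico 5 Q) id (Set.injOn_id _)
  have h2 : ∀ q ∈ Ico 5 Q, eps q ≤ 10 * (Q : ℝ) ^ (2 / 5 : ℝ) * ((id q : ℕ) : ℝ) ^ (-(16 / 15) : ℝ) := by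
    intro q hq
    obtain ⟨a, b⟩ := mem_Ico.1 hq
    have q5 : (5 : ℝ) ≤ q := by exact_mod_cast a
    have qQ : (q : ℝ) ≤ Q := by exact_mod_cast b.le
    refine (eps_le_rpow q a).trans ?_
    have : (q : ℝ) ^ (-(2 / 3) : ℝ) = (q : ℝ) ^ (2 / 5 : ℝ) * (q : ℝ) ^ (-(16 / 15) : ℝ) := by
      rw [← Real.rpow_add (by linarith)]; norm_num
    rw [this, id, mul_assoc]
    gcongr
  refine (sum_le_sum h2).trans ?_
  rw [← mul_sum]
  have := mul_le_mul_of_nonneg_left h1 (show 0 ≤ 10 * (Q : ℝ) ^ (2 / 5 : ℝ) by positivity)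
  linarith

lemma poor : ∀ᶠ Q : ℕ in atTop, ∀ D : Finset ℕ, (∀ q ∈ D, Q ≤ q) →
    (∀ q ∈ D, ((D.filter (· < q)).card + 1) ^ 2 ≤ q) → ∑ q ∈ D, eps q ≤ 1 / 2 := by
  obtain ⟨Z, hZ0, hZ⟩ := sum_rpow_bdd (7 / 6) (by norm_num)
  have t : Tendsto (fun Q : ℕ => 10 * (Q : ℝ) ^ (-(1 / 12) : ℝ) * Z) atTop (𝓝 (10 * 0 * Z)) :=
    (((tendsto_rpow_neg_atTop (by norm_num)).comp tendsto_natCast_atTop_atTop).const_mul 10).mul_const Z
  have t2 := t.eventually (gt_mem_nhds (show 10 * 0 * Z < 1 / 2 by norm_num))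
  filter_upwards [t2, eventually_ge_atTop 5] with Q hQ hQ5 D h1 h2
  have inj : Set.InjOn (fun q => (D.filter (· < q)).card + 1) D := by
    have : StrictMonoOn (fun q => (D.filter (· < q)).card + 1) D := by
      intro a ha b hb hab
      simp only [add_lt_add_iff_right]
      apply card_lt_card
      refine ⟨fun x hx => ?_, fun hh => ?_⟩
      · rw [mem_filter] at hx ⊢; exact ⟨hx.1, hx.2.trans hab⟩
      · have := hh (mem_filter.2 ⟨ha, hab⟩)
        simp at this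
    exact this.injOn
  have h3 := hZ D _ inj
  have h4 : ∀ q ∈ D, eps q ≤ 10 * (Q : ℝ) ^ (-(1 / 12) : ℝ) *
      ((((D.filter (· < q)).card + 1 : ℕ)) : ℝ) ^ (-(7 / 6) : ℝ) := by
    intro q hq
    have a := h1 q hq
    have Q5 : (5 : ℝ) ≤ Q := by exact_mod_cast hQ5
    have qQ : (Q : ℝ) ≤ q := by exact_mod_cast a
    refine (eps_le_rpow q (by omega)).trans ?_
    have : (q : ℝ) ^ (-(2 / 3) : ℝ) = (q : ℝ) ^ (-(1 / 12) : ℝ) * (q : ℝ) ^ (-(7 / 12) : ℝ) := by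
      rw [← Real.rpow_add (by linarith)]; norm_num
    rw [this, mul_assoc]
    set r := (D.filter (· < q)).card + 1 with hr
    have r0 : (0 : ℝ) < r := by rw [hr]; positivity
    have hr2 : (r : ℝ) ^ (2 : ℝ) ≤ q := by
      have := h2 q hq
      rw [Real.rpow_two]; exact_mod_cast this
    have b1 : (q : ℝ) ^ (-(1 / 12) : ℝ) ≤ (Q : ℝ) ^ (-(1 / 12) : ℝ) :=
      Real.rpow_le_rpow_of_nonpos (by linarith) qQ (by norm_num)
    have b2 : (q : ℝ) ^ (-(7 / 12) : ℝ) ≤ (r : ℝ) ^ (-(7 / 6) : ℝ) := by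
      have := Real.rpow_le_rpow_of_nonpos (by positivity) hr2 (show (-(7 / 12) : ℝ) ≤ 0 by norm_num)
      rw [← Real.rpow_mul r0.le] at this
      norm_num at this ⊢
      exact this
    gcongr
  refine (sum_le_sum h4).trans ?_
  rw [← mul_sum]
  have := mul_le_mul_of_nonneg_left h3 (show 0 ≤ 10 * (Q : ℝ) ^ (-(1 / 12) : ℝ) by positivity)
  linarith

lemma rich_sum (q : ℕ) (hq : 5 ≤ q) (M : Finset ℕ) (hM : ∀ m ∈ M, m ∈ (q + 1).smoothNumbers) :
    ∑ m ∈ M, (2 : ℝ) ^ m.primeFactors.card / m ≤ (q : ℝ) ^ 2 := by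
  let f : ℕ → ℝ := fun m => (2 : ℝ) ^ m.primeFactors.card / m
  have f0 : ∀ m, 0 ≤ f m := fun m => by positivity
  have hf1 : f 1 = 1 := by simp [f]
  have hmul : ∀ {m n : ℕ}, Nat.Coprime m n → f (m * n) = f m * f n := by
    intro m n h
    simp only [f]
    rw [h.primeFactors_mul, card_union_of_disjoint h.disjoint_primeFactors, pow_add]
    push_cast
    rw [div_mul_div_comm]
  have hs : ∀ {p : ℕ}, p.Prime → HasSum (fun n : ℕ => f (p ^ n)) (2 * (1 - 1 / (p : ℝ))⁻¹ - 1) := by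
    intro p hp
    have p1 : (1 : ℝ) < p := by exact_mod_cast hp.one_lt
    have g := (hasSum_geometric_of_lt_one (r := 1 / (p : ℝ)) (by positivity)
      (by rw [div_lt_one (by linarith)]; exact p1)).mul_left 2
    have g2 := g.sub (hasSum_ite_eq 0 (1 : ℝ))
    have e : (fun n : ℕ => f (p ^ n))
        = fun n : ℕ => 2 * (1 / (p : ℝ)) ^ n - if n = 0 then 1 else 0 := by
      funext n
      rcases Nat.eq_zero_or_pos n with rfl | hn
      · simp [f]; norm_num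
      · simp only [f]
        rw [Nat.primeFactors_prime_pow hn.ne' hp, if_neg hn.ne']
        simp [div_eq_mul_inv]
    rw [e]; exact g2
  have hE := (EulerProduct.summable_and_hasSum_smoothNumbers_prod_primesBelow_tsum hf1 hmul
    (fun {p} hp => by
      have := (hs hp).summable
      exact this.norm) (q + 1)).2
  have h1 : ∑ m ∈ M, f m ≤ ∏ p ∈ (q + 1).primesBelow, ∑' n : ℕ, f (p ^ n) := by
    have := sum_le_hasSum (M.subtype (· ∈ (q + 1).smoothNumbers)) (fun m _ => f0 m) hE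
    rwa [Finset.sum_subtype_of_mem f hM] at this
  refine h1.trans ?_
  have h2 : ∏ p ∈ (q + 1).primesBelow, ∑' n : ℕ, f (p ^ n)
      ≤ ∏ p ∈ (q + 1).primesBelow, ((1 - 1 / (p : ℝ))⁻¹) ^ 2 := by
    apply Finset.prod_le_prod
    · intro p _; exact tsum_nonneg (fun n => f0 _)
    · intro p hp
      rw [(hs (Nat.prime_of_mem_primesBelow hp)).tsum_eq]
      nlinarith [sq_nonneg ((1 - 1 / (p : ℝ))⁻¹ - 1)]
  refine h2.trans ?_
  rw [prod_pow, prod_inv_distrib]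
  have h3 := RR_lin (q + 1) (by omega)
  have h4 := RR_pos (q + 1)
  have h5 : (RR (q + 1))⁻¹ ≤ q := by
    rw [inv_le_iff_one_le_mul₀ h4]
    push_cast at h3; linarith
  exact pow_le_pow_left₀ (by positivity) h5 2

lemma rich_small (C δ : ℝ) (hδ : 0 < δ) : ∀ᶠ q : ℕ in atTop,
    (q : ℝ) ^ 2 * Real.exp (-(Real.log 2 * (q : ℝ) ^ (1 / 2 : ℝ)))
      ≤ δ * Real.exp (-(C * (q : ℝ) ^ (2 / 5 : ℝ))) * ((q : ℝ) ^ 2)⁻¹ := by
  have l2 : 0 < Real.log 2 := Real.log_pos (by norm_num)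
  have a1 := (isLittleO_log_rpow_atTop (show (0 : ℝ) < 1 / 2 by norm_num)).bound
    (show 0 < Real.log 2 / 12 by positivity)
  have a2 : Tendsto (fun x : ℝ => x ^ (1 / 10 : ℝ)) atTop atTop := tendsto_rpow_atTop (by norm_num)
  have a3 : Tendsto (fun x : ℝ => x ^ (1 / 2 : ℝ)) atTop atTop := tendsto_rpow_atTop (by norm_num)
  have b := tendsto_natCast_atTop_atTop (R := ℝ)
  filter_upwards [b.eventually a1, b.eventually (a2.eventually_ge_atTop (3 * C / Real.log 2)),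
    b.eventually (a3.eventually_ge_atTop (3 * (-Real.log δ) / Real.log 2)), eventually_ge_atTop 1]
    with q h1 h2 h3 h4
  have q1 : (1 : ℝ) ≤ q := by exact_mod_cast h4
  have q0 : (0 : ℝ) < q := by linarith
  rw [Real.norm_of_nonneg (Real.log_nonneg q1), Real.norm_of_nonneg (by positivity)] at h1
  rw [div_le_iff₀ l2] at h2 h3
  have e : (q : ℝ) ^ (1 / 2 : ℝ) = (q : ℝ) ^ (1 / 10 : ℝ) * (q : ℝ) ^ (2 / 5 : ℝ) := by
    rw [← Real.rpow_add q0]; norm_num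
  have h5 : 3 * C * (q : ℝ) ^ (2 / 5 : ℝ) ≤ (q : ℝ) ^ (1 / 2 : ℝ) * Real.log 2 := by
    rw [e]
    have := mul_le_mul_of_nonneg_right h2 (show 0 ≤ (q : ℝ) ^ (2 / 5 : ℝ) by positivity)
    linarith
  have e1 : (q : ℝ) ^ 2 = Real.exp (2 * Real.log q) := by
    rw [show (2 : ℝ) * Real.log q = ((2 : ℕ) : ℝ) * Real.log q by norm_num, Real.exp_nat_mul,
      Real.exp_log q0]
  rw [e1, ← Real.exp_neg, ← Real.exp_add]
  conv_rhs => rw [← Real.exp_log hδ, ← Real.exp_add, ← Real.exp_add]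
  apply Real.exp_le_exp.2
  linarith

end Pool.Agent.H.MP_cda74c_nt
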