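import Mathlib
import Pool.Agent.H.MP_cda74c_nt.A
import Pool.Agent.H.MP_cda74c_nt.B

open Finset Filter Topology

namespace Pool.Agent.H.MP_cda74c_nt

def LP (n : ℕ) : ℕ := n.primeFactors.sup id

lemma LP_mem (n : ℕ) (hn : 2 ≤ n) : LP n ∈ n.primeFactors := by
  have : n.primeFactors.Nonempty := Nat.nonempty_primeFactors.2 (by omega)
  obtain ⟨p, hp, h⟩ := Finset.exists_mem_eq_sup _ this id
  unfold LP; rw [h]; exact hp

lemma LP_prime (n : ℕ) (hn : 2 ≤ n) : (LP n).Prime := Nat.prime_of_mem_primeFactors (LP_mem n hn)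
lemma LP_dvd (n : ℕ) (hn : 2 ≤ n) : LP n ∣ n := Nat.dvd_of_mem_primeFactors (LP_mem n hn)
lemma le_LP (n p : ℕ) (hn : 2 ≤ n) (hp : p.Prime) (h : p ∣ n) : p ≤ LP n :=
  Finset.le_sup (f := id) (Nat.mem_primeFactors.2 ⟨hp, h, by omega⟩)

structure Sys {ι : Type*} (F : Finset ι) (a m : ι → ℕ) (N : ℕ) : Prop where
  hN : 0 < N
  hd : ∀ i ∈ F, m i ∣ N
  h2 : ∀ i ∈ F, 2 ≤ m i
  inj : Set.InjOn m F
  disj : ∀ i ∈ F, ∀ j ∈ F, i ≠ j → ∀ x, x ≡ a i [MOD m i] → ¬ x ≡ a j [MOD m j]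

variable {ι : Type*} {F : Finset ι} {a m : ι → ℕ} {N : ℕ}

lemma Sys.nomeet (h : Sys F a m N) {i j : ι} (hi : i ∈ F) (hj : j ∈ F) (hij : i ≠ j) {x b c : ℕ}
    (h1 : x ≡ a i [MOD b]) (h2 : x ≡ a j [MOD c]) (g1 : Nat.gcd (m i) (m j) ∣ b)
    (g2 : Nat.gcd (m i) (m j) ∣ c) : False := by
  have : a i ≡ a j [MOD Nat.gcd (m i) (m j)] := (h1.of_dvd g1).symm.trans (h2.of_dvd g2)
  obtain ⟨z, z1, z2⟩ := Nat.chineseRemainder' this
  exact h.disj i hi j hj hij z z1 z2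

lemma Sys.gcd_compl (h : Sys F a m N) {i j : ι} (hi : i ∈ F) (hj : j ∈ F)
    (hlt : LP (m j) < LP (m i)) : Nat.gcd (m i) (m j) ∣ ordCompl[LP (m i)] (m i) := by
  apply Nat.dvd_ordCompl_of_dvd_not_dvd (Nat.gcd_dvd_left _ _)
  intro hd
  have := le_LP _ _ (h.h2 j hj) (LP_prime _ (h.h2 i hi)) (hd.trans (Nat.gcd_dvd_right _ _))
  omega

lemma Sys.avoid (h : Sys F a m N) {i j : ι} (hi : i ∈ F) (hj : j ∈ F)
    (hlt : LP (m j) < LP (m i)) {x : ℕ} (h1 : x ≡ a i [MOD ordCompl[LP (m i)] (m i)]) :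
    ¬ x ≡ a j [MOD m j] := fun h2 =>
  h.nomeet hi hj (by rintro rfl; omega) h1 h2 (h.gcd_compl hi hj hlt) (Nat.gcd_dvd_right _ _)

lemma Sys.struct (h : Sys F a m N) {i j : ι} (hi : i ∈ F) (hj : j ∈ F)
    (hlt : LP (m j) < LP (m i)) {x : ℕ} (h1 : x ≡ a i [MOD ordCompl[LP (m i)] (m i)])
    (h2 : x ≡ a j [MOD ordCompl[LP (m j)] (m j)]) : LP (m j) ∣ m i := by
  by_contra hnd
  refine h.nomeet hi hj (by rintro rfl; omega) h1 h2 (h.gcd_compl hi hj hlt) ?_
  apply Nat.dvd_ordCompl_of_dvd_not_dvd (Nat.gcd_dvd_right _ _)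
  exact fun hd => hnd (hd.trans (Nat.gcd_dvd_left _ _))

lemma Sys.touch (h : Sys F a m N) (q : ℕ) (hq5 : 5 ≤ q) (G : Finset ι) (hG : G ⊆ F)
    (hq : ∀ i ∈ G, LP (m i) = q) :
    (∑ i ∈ G, (1 : ℝ) / m i) * N
      ≤ eps q * cnt N (fun x => ∃ i ∈ G, x ≡ a i [MOD ordCompl[q] (m i)]) := by
  rcases G.eq_empty_or_nonempty with rfl | ⟨i0, hi0⟩
  · simp only [sum_empty, zero_mul]
    exact mul_nonneg (eps_nonneg q hq5) (cnt_nonneg _ _)
  have qp : q.Prime := hq i0 hi0 ▸ LP_prime _ (h.h2 i0 (hG hi0))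
  have q1 : (5 : ℝ) ≤ q := by exact_mod_cast hq5
  have hK : ∀ j ∈ G, (m j).factorization q < N := fun j hj =>
    (Nat.factorization_lt q (by have := h.h2 j (hG hj); omega)).trans_le
      (Nat.le_of_dvd h.hN (h.hd j (hG hj)))
  set T := cnt N (fun x => ∃ i ∈ G, x ≡ a i [MOD ordCompl[q] (m i)]) with hT
  have T0 : 0 ≤ T := cnt_nonneg _ _
  have hI : ∀ e, RR q * (∑ j ∈ G.filter (fun j => (m j).factorization q = e),
      (1 : ℝ) / (ordCompl[q] (m j) : ℕ)) * N ≤ ind (e ≠ 0) * T := by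
    intro e
    by_cases he : e = 0
    · have : G.filter (fun j => (m j).factorization q = e) = ∅ := by
        apply filter_eq_empty_iff.2
        intro j hj h0
        have h2 := h.h2 j (hG hj)
        have := (qp.dvd_iff_one_le_factorization (by omega : m j ≠ 0)).1 (hq j hj ▸ LP_dvd _ h2)
        omega
      rw [this, ind_neg (by simpa using he)]; simp
    · rw [ind_pos he, one_mul]
      refine le_trans (rogers N h.hN a q.primesBelow (fun p hp => Nat.prime_of_mem_primesBelow hp)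
        _ _ (inj_compl G m (h.inj.mono (by exact_mod_cast hG)) q e) ?_) ?_
      · intro j hj
        have hj1 := (mem_filter.1 hj).1
        have h2 := h.h2 j (hG hj1)
        refine ⟨(Nat.ordCompl_dvd _ _).trans (h.hd j (hG hj1)), fun p hp hd => ?_⟩
        rw [Nat.mem_primesBelow]
        refine ⟨?_, hp⟩
        have := le_LP _ _ h2 hp (hd.trans (Nat.ordCompl_dvd _ _))
        rw [hq j hj1] at this
        rcases this.lt_or_eq with h3 | rfl
        · exact h3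
        · exact absurd hd (Nat.not_dvd_ordCompl hp (by omega))
      · apply cnt_mono
        rintro x ⟨j, hj, hx⟩
        exact ⟨j, (mem_filter.1 hj).1, hx⟩
  have g := geo q (by linarith) 1 N (fun e => ind (e ≠ 0)) (fun e => ind_le_one _)
    (fun e he => ind_neg (by omega))
  have r0 := RR_pos q
  have s : RR q * ((∑ i ∈ G, (1 : ℝ) / m i) * N)
      ≤ (∑ e ∈ range N, (1 / (q : ℝ)) ^ e * ind (e ≠ 0)) * T := by
    rw [split_sum G m q N hK, sum_mul, mul_sum, sum_mul]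
    apply sum_le_sum
    intro e _
    have := mul_le_mul_of_nonneg_left (hI e) (show 0 ≤ (1 / (q : ℝ)) ^ e by positivity)
    refine le_trans (le_of_eq ?_) (this.trans (le_of_eq ?_)) <;> ring
  have g2 : ∑ e ∈ range N, (1 / (q : ℝ)) ^ e * ind (e ≠ 0) ≤ 1 / ((q : ℝ) - 1) := by
    rw [le_div_iff₀ (by linarith)]
    have e1 : (1 - 1 / (q : ℝ)) = ((q : ℝ) - 1) * (1 / q) := by field_simp
    rw [e1, pow_one, mul_assoc, mul_comm, mul_assoc] at g
    have := le_of_mul_le_mul_left (g.trans (mul_one _).ge) (show 0 < 1 / (q : ℝ) by positivity)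
    exact this
  have s2 := s.trans (mul_le_mul_of_nonneg_right g2 T0)
  apply le_of_mul_le_mul_left _ r0
  refine s2.trans (le_of_eq ?_)
  unfold eps
  have : (q : ℝ) - 1 ≠ 0 := by linarith
  field_simp

lemma Sys.union (h : Sys F a m N) (G : Finset ι) (hG : G ⊆ F) :
    cnt N (fun x => ¬ ∃ i ∈ G, x ≡ a i [MOD m i]) = (1 - ∑ i ∈ G, (1 : ℝ) / m i) * N := by
  have pw : ∀ x, ind (¬ ∃ i ∈ G, x ≡ a i [MOD m i]) = 1 - ∑ i ∈ G, ind (x ≡ a i [MOD m i]) := by
    intro x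
    by_cases hx : ∃ i ∈ G, x ≡ a i [MOD m i]
    · rw [ind_neg (not_not.2 hx)]
      obtain ⟨i, hi, hxi⟩ := hx
      rw [sum_eq_single_of_mem i hi, ind_pos hxi, sub_self]
      intro j hj hji
      exact ind_neg (h.disj i (hG hi) j (hG hj) hji.symm x hxi)
    · rw [ind_pos hx, sum_eq_zero, sub_zero]
      intro i hi
      exact ind_neg (fun h' => hx ⟨i, hi, h'⟩)
  unfold cnt
  simp only [pw]
  rw [sum_sub_distrib, sum_comm, sub_mul, sum_mul]
  congr 1
  · simp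
  · apply sum_congr rfl
    intro i hi
    have := cnt_class N (a i) (m i) (by have := h.h2 i (hG hi); omega) (h.hd i (hG hi))
    unfold cnt at this
    rw [this]; ring

noncomputable def uu (F : Finset ι) (m : ι → ℕ) (q : ℕ) : ℝ :=
  1 - ∑ i ∈ F.filter (fun i => LP (m i) < q), (1 : ℝ) / m i

lemma Sys.uu_cnt (h : Sys F a m N) (q : ℕ) :
    cnt N (fun x => ¬ ∃ i ∈ F.filter (fun i => LP (m i) < q), x ≡ a i [MOD m i]) = uu F m q * N :=
  h.union _ (filter_subset _ _)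

lemma Sys.uu_nonneg (h : Sys F a m N) (q : ℕ) : 0 ≤ uu F m q := by
  have := cnt_nonneg N (fun x => ¬ ∃ i ∈ F.filter (fun i => LP (m i) < q), x ≡ a i [MOD m i])
  rw [h.uu_cnt] at this
  have N0 : (0 : ℝ) < N := by exact_mod_cast h.hN
  exact nonneg_of_mul_nonneg_left this N0

lemma Sys.uu_step (h : Sys F a m N) (q : ℕ) (hq : 5 ≤ q) :
    Real.exp (-(4 * eps q)) * uu F m q ≤ uu F m (q + 1) := by
  have N0 : (0 : ℝ) < N := by exact_mod_cast h.hN
  have t := h.touch q hq (F.filter (fun i => LP (m i) = q)) (filter_subset _ _)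
    (fun i hi => (mem_filter.1 hi).2)
  have c : cnt N (fun x => ∃ i ∈ F.filter (fun i => LP (m i) = q), x ≡ a i [MOD ordCompl[q] (m i)])
      ≤ uu F m q * N := by
    rw [← h.uu_cnt]
    apply cnt_mono
    rintro x ⟨i, hi, hx⟩ ⟨j, hj, hy⟩
    obtain ⟨i1, i2⟩ := mem_filter.1 hi
    obtain ⟨j1, j2⟩ := mem_filter.1 hj
    exact h.avoid i1 j1 (i2 ▸ j2) (i2 ▸ hx) hy
  have e0 := eps_nonneg q hq
  have e1 := eps_le q hq
  have t2 := t.trans (mul_le_mul_of_nonneg_left c e0)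
  rw [← mul_assoc] at t2
  have t3 := le_of_mul_le_mul_right t2 N0
  have e : uu F m (q + 1) = uu F m q - ∑ i ∈ F.filter (fun i => LP (m i) = q), (1 : ℝ) / m i := by
    unfold uu
    simp only [sum_filter]
    rw [sub_sub, ← sum_add_distrib]
    congr 1
    apply sum_congr rfl
    intro i _
    split_ifs <;> first | omega | simp
  have x1 : Real.exp (-(4 * eps q)) ≤ 1 - eps q := by
    rw [Real.exp_neg, inv_le_iff_one_le_mul₀ (Real.exp_pos _)]
    have := Real.add_one_le_exp (4 * eps q)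
    nlinarith
  have := mul_le_mul_of_nonneg_right x1 (h.uu_nonneg q)
  rw [e]; linarith

lemma Sys.uu_lower (h : Sys F a m N) (Q : ℕ) (hQ : 5 ≤ Q) :
    Real.exp (-(4 * ∑ q ∈ Ico 5 Q, eps q)) * uu F m 5 ≤ uu F m Q := by
  induction Q, hQ using Nat.le_induction with
  | base => simp
  | succ Q hQ ih =>
    refine le_trans ?_ (h.uu_step Q hQ)
    rw [sum_Ico_succ_top hQ]
    have : -(4 * (∑ q ∈ Ico 5 Q, eps q + eps Q))
        = -(4 * eps Q) + -(4 * ∑ q ∈ Ico 5 Q, eps q) := by ring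
    rw [this, Real.exp_add, mul_assoc]
    exact mul_le_mul_of_nonneg_left ih (Real.exp_pos _).le

lemma Sys.fib (h : Sys F a m N) (Q : ℕ) (G : Finset ι) (hG : G ⊆ F) (hQ : ∀ i ∈ G, Q ≤ LP (m i)) :
    ∑ i ∈ G, (1 : ℝ) / m i
      = ∑ q ∈ Ico Q (N + 1), ∑ i ∈ G.filter (fun i => LP (m i) = q), (1 : ℝ) / m i := by
  symm
  apply Finset.sum_fiberwise_of_maps_to
  intro i hi
  have h2 := h.h2 i (hG hi)
  have := Nat.le_of_dvd h.hN ((LP_dvd _ h2).trans (h.hd i (hG hi)))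
  exact mem_Ico.2 ⟨hQ i hi, by omega⟩

lemma Sys.poor_bound (h : Sys F a m N) (Q : ℕ) (hQ5 : 5 ≤ Q)
    (hp : ∀ D : Finset ℕ, (∀ q ∈ D, Q ≤ q) →
      (∀ q ∈ D, ((D.filter (· < q)).card + 1) ^ 2 ≤ q) → ∑ q ∈ D, eps q ≤ 1 / 2) :
    ∑ i ∈ F.filter (fun i => Q ≤ LP (m i) ∧ (m i).primeFactors.card ^ 2 ≤ LP (m i)),
      (1 : ℝ) / m i ≤ uu F m Q / 2 := by
  classical
  have N0 : (0 : ℝ) < N := by exact_mod_cast h.hN
  set G := F.filter (fun i => Q ≤ LP (m i) ∧ (m i).primeFactors.card ^ 2 ≤ LP (m i)) with hG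
  have GF : G ⊆ F := filter_subset _ _
  rw [h.fib Q G GF (fun i hi => (mem_filter.1 hi).2.1)]
  let T : ℕ → ℕ → Prop := fun q x =>
    ∃ i ∈ G.filter (fun i => LP (m i) = q), x ≡ a i [MOD ordCompl[q] (m i)]
  have t : ∀ q ∈ Ico Q (N + 1), (∑ i ∈ G.filter (fun i => LP (m i) = q), (1 : ℝ) / m i) * N
      ≤ eps q * cnt N (T q) := fun q hq =>
    h.touch q (hQ5.trans (mem_Ico.1 hq).1) _ ((filter_subset _ _).trans GF)
      (fun i hi => (mem_filter.1 hi).2)
  have s := sum_le_sum t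
  rw [← sum_mul] at s
  have pw : ∀ x, ∑ q ∈ Ico Q (N + 1), eps q * ind (T q x)
      ≤ 1 / 2 * ind (¬ ∃ i ∈ F.filter (fun i => LP (m i) < Q), x ≡ a i [MOD m i]) := by
    intro x
    by_cases hx : ∃ i ∈ F.filter (fun i => LP (m i) < Q), x ≡ a i [MOD m i]
    · rw [ind_neg (not_not.2 hx), mul_zero]
      apply le_of_eq
      apply sum_eq_zero
      intro q hq
      rw [ind_neg, mul_zero]
      rintro ⟨i, hi, hxi⟩
      obtain ⟨j, hj, hy⟩ := hx
      obtain ⟨i1, i2⟩ := mem_filter.1 hi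
      obtain ⟨j1, j2⟩ := mem_filter.1 hj
      have := (mem_Ico.1 hq).1
      exact h.avoid (GF i1) j1 (by omega) (i2 ▸ hxi) hy
    · rw [ind_pos hx, mul_one]
      have e : ∑ q ∈ Ico Q (N + 1), eps q * ind (T q x)
          = ∑ q ∈ (Ico Q (N + 1)).filter (fun q => T q x), eps q := by
        rw [sum_filter]
        apply sum_congr rfl
        intro q _
        split_ifs with hh
        · rw [ind_pos hh, mul_one]
        · rw [ind_neg hh, mul_zero]
      rw [e]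
      apply hp
      · intro q hq; exact (mem_Ico.1 (mem_filter.1 hq).1).1
      · intro q hq
        obtain ⟨i, hi, hxi⟩ := (mem_filter.1 hq).2
        obtain ⟨i1, i2⟩ := mem_filter.1 hi
        have i3 := (mem_filter.1 i1).2.2
        have h2 := h.h2 i (GF i1)
        have sub : insert q (((Ico Q (N + 1)).filter (fun q => T q x)).filter (· < q))
            ⊆ (m i).primeFactors := by
          intro r hr
          rcases mem_insert.1 hr with rfl | hr
          · rw [← i2]; exact LP_mem _ h2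
          · obtain ⟨r1, r2⟩ := mem_filter.1 hr
            obtain ⟨j, hj, hxj⟩ := (mem_filter.1 r1).2
            obtain ⟨j1, j2⟩ := mem_filter.1 hj
            have := h.struct (GF i1) (GF j1) (by omega) (i2 ▸ hxi) (j2 ▸ hxj)
            rw [← j2]
            exact Nat.mem_primeFactors.2 ⟨LP_prime _ (h.h2 j (GF j1)), this, by omega⟩
        have c := card_le_card sub
        rw [card_insert_of_notMem (by simp)] at c
        exact (Nat.pow_le_pow_left c 2).trans (i2 ▸ i3)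
  have s2 : ∑ q ∈ Ico Q (N + 1), eps q * cnt N (T q) ≤ 1 / 2 * (uu F m Q * N) := by
    rw [← h.uu_cnt]
    unfold cnt
    simp only [mul_sum]
    rw [sum_comm]
    exact sum_le_sum (fun x _ => pw x)
  have := s.trans s2
  apply le_of_mul_le_mul_right _ N0
  linarith

lemma Sys.rich_bound (h : Sys F a m N) (Q : ℕ) (hQ5 : 5 ≤ Q) (η : ℝ) (hη : 0 ≤ η)
    (hr : ∀ q, Q ≤ q → (q : ℝ) ^ 2 * Real.exp (-(Real.log 2 * (q : ℝ) ^ (1 / 2 : ℝ)))
      ≤ η * ((q : ℝ) ^ 2)⁻¹) :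
    ∑ i ∈ F.filter (fun i => Q ≤ LP (m i) ∧ ¬ (m i).primeFactors.card ^ 2 ≤ LP (m i)),
      (1 : ℝ) / m i ≤ η := by
  classical
  set G := F.filter (fun i => Q ≤ LP (m i) ∧ ¬ (m i).primeFactors.card ^ 2 ≤ LP (m i)) with hG
  have GF : G ⊆ F := filter_subset _ _
  rw [h.fib Q G GF (fun i hi => (mem_filter.1 hi).2.1)]
  have t : ∀ q ∈ Ico Q (N + 1), ∑ i ∈ G.filter (fun i => LP (m i) = q), (1 : ℝ) / m i
      ≤ η * ((q : ℝ) ^ 2)⁻¹ := by
    intro q hq
    have q1 := (mem_Ico.1 hq).1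
    refine le_trans ?_ (hr q q1)
    set H := G.filter (fun i => LP (m i) = q) with hH
    have HF : H ⊆ F := (filter_subset _ _).trans GF
    have r := rich_sum q (by omega) (H.image m) (by
      intro n hn
      obtain ⟨i, hi, rfl⟩ := mem_image.1 hn
      have h2 := h.h2 i (HF hi)
      rw [Nat.mem_smoothNumbers']
      intro p hp hd
      have := le_LP _ _ h2 hp hd
      have := (mem_filter.1 hi).2
      omega)
    rw [sum_image (h.inj.mono (by exact_mod_cast HF))] at r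
    refine le_trans ?_ (mul_le_mul_of_nonneg_right r (Real.exp_pos _).le)
    rw [sum_mul]
    apply sum_le_sum
    intro i hi
    have i2 := (mem_filter.1 hi).2
    have i3 := (mem_filter.1 (mem_filter.1 hi).1).2.2
    rw [i2] at i3
    set w := (m i).primeFactors.card
    have w1 : (q : ℝ) ^ (1 / 2 : ℝ) ≤ w := by
      rw [← Real.sqrt_eq_rpow, Real.sqrt_le_left (by positivity)]
      exact_mod_cast (not_le.1 i3).le
    have w2 : 1 ≤ (2 : ℝ) ^ w * Real.exp (-(Real.log 2 * (q : ℝ) ^ (1 / 2 : ℝ))) := by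
      have : (2 : ℝ) ^ w = Real.exp (w * Real.log 2) := by
        rw [Real.exp_nat_mul, Real.exp_log (by norm_num)]
      rw [this, ← Real.exp_add]
      apply Real.one_le_exp
      have l2 : 0 < Real.log 2 := Real.log_pos (by norm_num)
      nlinarith
    rw [div_mul_eq_mul_div]
    gcongr
  refine (sum_le_sum t).trans ?_
  rw [← mul_sum]
  have s : ∑ q ∈ Ico Q (N + 1), ((q : ℝ) ^ 2)⁻¹ ≤ 1 := by
    have := sum_Ioo_inv_sq_le (α := ℝ) 1 (N + 1)
    refine le_trans (sum_le_sum_of_subset_of_nonneg ?_ (fun _ _ _ => by positivity))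
      (this.trans (by norm_num))
    intro q hq
    have := mem_Ico.1 hq
    exact mem_Ioo.2 ⟨by omega, this.2⟩
  nlinarith

theorem gap (m0 : ℕ) (hm0 : 0 < m0) : ∃ c : ℝ, 0 < c ∧ ∀ (F : Finset ι) (a m : ι → ℕ) (N : ℕ),
    Sys F a m N → ∀ i0 ∈ F, m i0 = m0 → 5 ≤ LP m0 → ∑ i ∈ F, (1 : ℝ) / m i ≤ 1 - c := by
  classical
  obtain ⟨C, C0, hC⟩ := phase1
  have M0 : (0 : ℝ) < m0 := by exact_mod_cast hm0
  obtain ⟨Q, hQ⟩ := eventually_atTop.1
    ((rich_small (4 * C) (1 / (4 * m0)) (by positivity)).and (poor.and (eventually_ge_atTop 5)))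
  obtain ⟨-, hp, hQ5⟩ := hQ Q le_rfl
  set η := 1 / (4 * (m0 : ℝ)) * Real.exp (-(4 * C * (Q : ℝ) ^ (2 / 5 : ℝ))) with hη
  have η0 : 0 < η := by positivity
  refine ⟨η, η0, fun F a m N h i0 hi0 e0 h5 => ?_⟩
  have b1 := h.poor_bound Q hQ5 hp
  have b2 := h.rich_bound Q hQ5 η η0.le (fun q hq => by
    refine (hQ q hq).1.trans ?_
    have : (Q : ℝ) ≤ q := by exact_mod_cast hq
    rw [hη]
    gcongr)
  have b3 := h.uu_lower Q hQ5
  have N0 : (0 : ℝ) < N := by exact_mod_cast h.hN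
  have tot : ∑ i ∈ F, (1 : ℝ) / m i ≤ 1 := by
    have := cnt_nonneg N (fun x => ¬ ∃ i ∈ F, x ≡ a i [MOD m i])
    rw [h.union F (Subset.refl _)] at this
    have := nonneg_of_mul_nonneg_left this N0
    linarith
  have b4 : 1 / (m0 : ℝ) ≤ uu F m 5 := by
    unfold uu
    have n0 : i0 ∉ F.filter (fun i => LP (m i) < 5) := by
      rw [mem_filter, e0]; omega
    have := sum_le_sum_of_subset_of_nonneg (f := fun i => (1 : ℝ) / m i)
      (s := insert i0 (F.filter (fun i => LP (m i) < 5))) (t := F)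
      (insert_subset hi0 (filter_subset _ _)) (fun _ _ _ => by positivity)
    rw [sum_insert n0, e0] at this
    linarith
  have b5 : 4 * η ≤ uu F m Q := by
    refine le_trans ?_ b3
    have x1 : Real.exp (-(4 * C * (Q : ℝ) ^ (2 / 5 : ℝ)))
        ≤ Real.exp (-(4 * ∑ q ∈ Ico 5 Q, eps q)) := by
      apply Real.exp_le_exp.2
      have := hC Q
      linarith
    have : 4 * η = Real.exp (-(4 * C * (Q : ℝ) ^ (2 / 5 : ℝ))) * (1 / m0) := by
      rw [hη]; field_simp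
    rw [this]
    exact mul_le_mul x1 b4 (by positivity) (Real.exp_pos _).le
  have sp : ∑ i ∈ F, (1 : ℝ) / m i = ∑ i ∈ F.filter (fun i => LP (m i) < Q), (1 : ℝ) / m i
      + ∑ i ∈ F.filter (fun i => Q ≤ LP (m i) ∧ (m i).primeFactors.card ^ 2 ≤ LP (m i)),
        (1 : ℝ) / m i
      + ∑ i ∈ F.filter (fun i => Q ≤ LP (m i) ∧ ¬ (m i).primeFactors.card ^ 2 ≤ LP (m i)),
        (1 : ℝ) / m i := by
    simp only [sum_filter]
    rw [← sum_add_distrib, ← sum_add_distrib]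
    apply sum_congr rfl
    intro i _
    split_ifs <;> first | omega | simp
  unfold uu at b1 b5
  linarith

end Pool.Agent.H.MP_cda74c_nt
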